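import Mathlib
import Pool.Agent.Lib.MP_37e900_nt.WZ
import Pool.Agent.Lib.MP_37e900_nt.Padic

open Finset Pool.Agent.Lib.MP_37e900_nt

namespace Pool.Agent.Results.MP_37e900_nt.ApVanishes

/-- `A_p = ∑_{0 ≤ k ≤ p-1} 48^{-k} C(4k,2k+1) C(2k,k)`. -/
def A (p : ℕ) : ℚ :=
  ∑ k ∈ range p, ((4 * k).choose (2 * k + 1) : ℚ) * ((2 * k).choose k : ℚ) / 48 ^ k

/-- the product over `0 ≤ i < 2k`, `i ≠ k`, of `2i+1-v` -/
def E (v : ℚ) (k : ℕ) : ℚ := ∏ i ∈ (range (2 * k)).erase k, (2 * (i : ℚ) + 1 - v)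

/-- the deformed summand -/
def tau (v : ℚ) (k : ℕ) : ℚ :=
  (2 * (k : ℚ)) * (1 - v) * E v k
    * ((4 : ℚ) ^ k * (k.factorial : ℚ) * ∏ i ∈ range k, (3 * ((i : ℚ) + 1) - v))⁻¹

lemma E_mul (v : ℚ) (k : ℕ) (hk : 1 ≤ k) :
    E v k * (2 * (k : ℚ) + 1 - v) = ∏ i ∈ range (2 * k), (2 * (i : ℚ) + 1 - v) := by
  unfold E
  rw [prod_erase_mul]
  exact mem_range.mpr (by omega)

lemma odd_prod (m : ℕ) :
    (∏ i ∈ range m, (2 * (i : ℚ) + 1)) * (2 ^ m * (m.factorial : ℚ)) = ((2 * m).factorial : ℚ) := by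
  induction m with
  | zero => simp
  | succ m ih =>
    rw [prod_range_succ, Nat.factorial_succ]
    have e : 2 * (m + 1) = 2 * m + 1 + 1 := by ring
    rw [e, Nat.factorial_succ, Nat.factorial_succ]
    push_cast
    rw [← ih]
    ring

lemma three_prod (k : ℕ) : ∏ i ∈ range k, (3 * ((i : ℚ) + 1) - 0) = 3 ^ k * (k.factorial : ℚ) := by
  induction k with
  | zero => simp
  | succ k ih =>
    rw [prod_range_succ, ih, Nat.factorial_succ]
    push_cast
    ring

lemma tau_zero (k : ℕ) :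
    tau 0 k = ((4 * k).choose (2 * k + 1) : ℚ) * ((2 * k).choose k : ℚ) / 48 ^ k := by
  rcases Nat.eq_zero_or_pos k with rfl | hk
  · simp [tau]
  obtain ⟨m, rfl⟩ : ∃ m, k = m + 1 := ⟨k - 1, by omega⟩
  have h1 := E_mul 0 (m + 1) hk
  have h2 := odd_prod (2 * (m + 1))
  have h3 : ∏ i ∈ range (2 * (m + 1)), (2 * (i : ℚ) + 1 - 0)
      = ∏ i ∈ range (2 * (m + 1)), (2 * (i : ℚ) + 1) := by simp
  rw [h3] at h1
  rw [← h1] at h2
  unfold tau
  rw [three_prod]
  -- binomials via factorials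
  have c1 : (((4 * (m + 1)).choose (2 * (m + 1) + 1) : ℕ) : ℚ)
      = ((2 * (2 * (m + 1))).factorial : ℚ)
        / (((2 * (m + 1) + 1).factorial : ℚ) * ((2 * m + 1).factorial : ℚ)) := by
    have e : 4 * (m + 1) = 2 * (2 * (m + 1)) := by ring
    rw [e, Nat.cast_choose ℚ (by omega)]
    have e2 : 2 * (2 * (m + 1)) - (2 * (m + 1) + 1) = 2 * m + 1 := by omega
    rw [e2]
  have c2 : (((2 * (m + 1)).choose (m + 1) : ℕ) : ℚ)
      = ((2 * (m + 1)).factorial : ℚ) / (((m + 1).factorial : ℚ) * ((m + 1).factorial : ℚ)) := by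
    rw [Nat.cast_choose ℚ (by omega)]
    have e2 : 2 * (m + 1) - (m + 1) = m + 1 := by omega
    rw [e2]
  rw [c1, c2, ← h2]
  have f1 : ((2 * (m + 1) + 1).factorial : ℚ) = (2 * (m + 1) + 1) * ((2 * (m + 1)).factorial : ℚ) := by
    rw [Nat.factorial_succ]
    push_cast
    ring
  have f2 : ((2 * (m + 1)).factorial : ℚ) = (2 * (m + 1)) * ((2 * m + 1).factorial : ℚ) := by
    have : 2 * (m + 1) = (2 * m + 1) + 1 := by ring
    rw [this, Nat.factorial_succ]
    push_cast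
    ring
  rw [f1, f2]
  have n1 : ((2 * m + 1).factorial : ℚ) ≠ 0 := by positivity
  have n2 : ((m + 1).factorial : ℚ) ≠ 0 := by positivity
  have n3 : (2 * ((m : ℚ) + 1) + 1) ≠ 0 := by positivity
  have n4 : (m : ℚ) + 1 ≠ 0 := by positivity
  have p48 : (48 : ℚ) ^ (m + 1) = 4 ^ (m + 1) * 4 ^ (m + 1) * 3 ^ (m + 1) := by
    rw [← mul_pow, ← mul_pow]; norm_num
  have p2 : (2 : ℚ) ^ (2 * (m + 1)) = 4 ^ (m + 1) := by
    rw [pow_mul]; norm_num
  rw [p48, p2]
  push_cast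
  generalize E 0 (m + 1) = e0
  field_simp
  ring

lemma prod_two (h k : ℕ) :
    ∏ i ∈ range (2 * k), (2 * (i : ℚ) + 1 - (2 * h + 1)) = 4 ^ k * P (h : ℚ) (2 * k) := by
  have e : ∀ i ∈ range (2 * k), (2 * (i : ℚ) + 1 - (2 * h + 1)) = (-2) * ((h : ℚ) - i) := by
    intro i _
    ring
  rw [prod_congr rfl e, prod_mul_distrib, prod_const, card_range, pow_mul]
  norm_num [P]

lemma three_prod' (h k : ℕ) :
    ∏ i ∈ range k, (3 * ((i : ℚ) + 1) - (2 * h + 1)) = Pi (h : ℚ) k := by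
  unfold Pi
  apply prod_congr rfl
  intro i _
  ring

lemma tau_odd (h k : ℕ) (hkh : k ≠ h) : tau (2 * h + 1) k = F (h : ℚ) k := by
  rcases Nat.eq_zero_or_pos k with rfl | hk
  · simp [tau, F]
  have h1 := E_mul (2 * h + 1) k hk
  rw [prod_two] at h1
  have hne : (h : ℚ) - k ≠ 0 := by
    rw [sub_ne_zero]
    exact_mod_cast hkh.symm
  have h2 : E (2 * h + 1) k = -(4 ^ k * P (h : ℚ) (2 * k)) / (2 * ((h : ℚ) - k)) := by
    rw [eq_div_iff (by simpa using hne)]
    linear_combination -h1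
  unfold tau F
  rw [three_prod', h2, div_eq_mul_inv (P (h : ℚ) (2 * k)), mul_inv, mul_inv, mul_inv]
  have n1 : (4 : ℚ) ^ k ≠ 0 := by positivity
  field_simp
  ring

lemma prod_lt (h : ℕ) : ∏ i ∈ range h, (2 * (i : ℚ) - 2 * h) = (-2) ^ h * (h.factorial : ℚ) := by
  have e : ∀ i ∈ range h, (2 * (i : ℚ) - 2 * h) = (-2) * ((h : ℚ) - i) := by
    intro i _
    ring
  rw [prod_congr rfl e, prod_mul_distrib, prod_const, card_range]
  congr 1
  rw [← prod_range_reflect]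
  have e2 : ∀ j ∈ range h, ((h : ℚ) - ((h - 1 - j : ℕ) : ℚ)) = (j : ℚ) + 1 := by
    intro j hj
    have hj' := mem_range.mp hj
    have : h - 1 - j + (j + 1) = h := by omega
    have h3 : ((h - 1 - j : ℕ) : ℚ) + ((j : ℚ) + 1) = h := by exact_mod_cast this
    linarith
  rw [prod_congr rfl e2]
  have := Finset.prod_range_add_one_eq_factorial h
  rw [← this]
  push_cast
  rfl

lemma E_self (m : ℕ) : E (2 * ((m + 1 : ℕ) : ℚ) + 1) (m + 1)
    = (-2) ^ (m + 1) * ((m + 1).factorial : ℚ) * (2 ^ m * (m.factorial : ℚ)) := by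
  set h := m + 1 with hh
  let g : ℕ → ℚ := fun i => if i = h then 1 else (2 * (i : ℚ) - 2 * h)
  have h1 : E (2 * (h : ℚ) + 1) h = ∏ i ∈ (range (2 * h)).erase h, g i := by
    unfold E
    apply prod_congr rfl
    intro i hi
    have : i ≠ h := (mem_erase.mp hi).1
    simp only [g, if_neg this]
    ring
  have h2 : ∏ i ∈ (range (2 * h)).erase h, g i = ∏ i ∈ range (2 * h), g i :=
    prod_erase _ (by simp [g])
  have h3 : ∏ i ∈ range (2 * h), g i = (∏ i ∈ range h, g i) * ∏ i ∈ range h, g (h + i) := by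
    rw [two_mul, prod_range_add]
  have h4 : ∏ i ∈ range h, g i = (-2) ^ h * (h.factorial : ℚ) := by
    rw [← prod_lt]
    apply prod_congr rfl
    intro i hi
    have : i ≠ h := (mem_range.mp hi).ne
    simp only [g, if_neg this]
  have h5 : ∏ i ∈ range h, g (h + i) = 2 ^ m * (m.factorial : ℚ) := by
    rw [hh, prod_range_succ', ← hh]
    have e0 : g (h + 0) = 1 := by simp [g]
    rw [e0, mul_one]
    have e1 : ∀ i ∈ range m, g (h + (i + 1)) = 2 * ((i : ℚ) + 1) := by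
      intro i _
      have : h + (i + 1) ≠ h := by omega
      simp only [g, if_neg this]
      push_cast
      ring
    rw [prod_congr rfl e1, prod_mul_distrib, prod_const, card_range]
    congr 1
    rw [← Finset.prod_range_add_one_eq_factorial m]
    push_cast
    rfl
  rw [h1, h2, h3, h4, h5]

lemma tau_self (h : ℕ) (hh : 1 ≤ h) : tau (2 * h + 1) h = - Mv h := by
  obtain ⟨m, rfl⟩ : ∃ m, h = m + 1 := ⟨h - 1, by omega⟩
  unfold tau Mv
  rw [three_prod', E_self, mul_inv, div_eq_mul_inv]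
  have f1 : ((m + 1).factorial : ℚ) = ((m + 1 : ℕ) : ℚ) * (m.factorial : ℚ) := by
    rw [Nat.factorial_succ]
    push_cast
    ring
  have n1 : (m.factorial : ℚ) ≠ 0 := by positivity
  have n2 : ((m + 1 : ℕ) : ℚ) ≠ 0 := by positivity
  have p4 : (4 : ℚ) ^ (m + 1) = 2 ^ (m + 1) * 2 ^ (m + 1) := by
    rw [← mul_pow]; norm_num
  have pm2 : (-2 : ℚ) ^ (m + 1) = (-1) ^ (m + 1) * 2 ^ (m + 1) := by
    rw [← mul_pow]; norm_num
  rw [f1, p4, pm2]
  generalize (Pi (((m + 1 : ℕ) : ℚ)) (m + 1))⁻¹ = w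
  rw [pow_succ (2 : ℚ) m]
  field_simp
  ring

/-- the triple `(tau 0 k, tau p k, tau (3p) k)` is affine modulo `p^2` -/
lemma W_tau (p : ℕ) [hp : Fact p.Prime] (h3 : 3 < p) (k : ℕ) (hk : k < p) :
    W p (tau (0 : ℚ) k) (tau (p : ℚ) k) (tau (3 * (p : ℚ)) k) := by
  have hW1 : W p (1 - 0 : ℚ) (1 - p) (1 - 3 * p) := W_lin (by exact_mod_cast Z_nat (p := p) 1)
  have hWE : W p (E 0 k) (E p k) (E (3 * p) k) := by
    unfold E
    apply W_prod
    intro i _
    exact W_lin (by exact_mod_cast Z_nat (p := p) (2 * i + 1))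
  have hWk : W p (2 * (k : ℚ)) (2 * (k : ℚ)) (2 * (k : ℚ)) :=
    W_const (by exact_mod_cast Z_nat (p := p) (2 * k))
  have hWc : W p ((4 : ℚ) ^ k * (k.factorial : ℚ)) ((4 : ℚ) ^ k * (k.factorial : ℚ))
      ((4 : ℚ) ^ k * (k.factorial : ℚ)) :=
    W_const (by exact_mod_cast Z_nat (p := p) (4 ^ k * k.factorial))
  have hWD : W p (∏ i ∈ range k, (3 * ((i : ℚ) + 1) - 0)) (∏ i ∈ range k, (3 * ((i : ℚ) + 1) - p))
      (∏ i ∈ range k, (3 * ((i : ℚ) + 1) - 3 * p)) := by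
    apply W_prod
    intro i _
    exact W_lin (by exact_mod_cast Z_nat (p := p) (3 * (i + 1)))
  have hnorm : padicNorm p ((4 : ℚ) ^ k * (k.factorial : ℚ)
      * ∏ i ∈ range k, (3 * ((i : ℚ) + 1) - 0)) = 1 := by
    rw [three_prod]
    have e : (4 : ℚ) ^ k * (k.factorial : ℚ) * (3 ^ k * (k.factorial : ℚ))
        = ((4 ^ k * k.factorial * (3 ^ k * k.factorial) : ℕ) : ℚ) := by
      push_cast
      ring
    rw [e, padicNorm.nat_eq_one_iff]
    intro hd
    have hf : ¬ p ∣ k.factorial := by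
      rw [hp.out.dvd_factorial]
      omega
    have h4 : ¬ p ∣ 4 ^ k := by
      intro h
      have := hp.out.dvd_of_dvd_pow h
      have h2 : p ∣ 2 := by
        have : p ∣ 2 ^ 2 := by simpa using this
        exact hp.out.dvd_of_dvd_pow this
      have := Nat.le_of_dvd (by norm_num) h2
      omega
    have h3' : ¬ p ∣ 3 ^ k := by
      intro h
      have := Nat.le_of_dvd (by norm_num) (hp.out.dvd_of_dvd_pow h)
      omega
    rcases hp.out.dvd_mul.mp hd with h | h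
    · rcases hp.out.dvd_mul.mp h with h | h
      · exact h4 h
      · exact hf h
    · rcases hp.out.dvd_mul.mp h with h | h
      · exact h3' h
      · exact hf h
  unfold tau
  exact W_mul (W_mul (W_mul hWk hW1) hWE) (W_inv (W_mul hWc hWD) hnorm)

/-- **Q1 in full.**  For every prime `p > 3`, `A_p ≡ 0 (mod p^2)`. -/
theorem result (p : ℕ) (hp : p.Prime) (h3 : 3 < p) : (p : ℤ) ^ 2 ∣ (A p).num := by
  have : Fact p.Prime := ⟨hp⟩
  obtain ⟨h, hh⟩ : ∃ h, p = 2 * h + 1 := by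
    rcases hp.eq_two_or_odd' with h2 | hodd
    · omega
    · exact hodd
  have hpos : 1 ≤ h := by omega
  have hmod : h % 3 ≠ 1 := by
    intro hm
    have h3d : 3 ∣ p := by omega
    have := (Nat.prime_dvd_prime_iff_eq Nat.prime_three hp).mp h3d
    omega
  -- the value at `v = p`
  have g1 : ∑ k ∈ range p, tau (p : ℚ) k = 0 := by
    have hcast : (p : ℚ) = 2 * (h : ℚ) + 1 := by rw [hh]; push_cast; ring
    have e1 : ∀ k ∈ range p, tau (p : ℚ) k = F (h : ℚ) k + (if k = h then - Mv h else 0) := by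
      intro k _
      rw [hcast]
      split_ifs with hk
      · subst hk
        rw [tau_self k hpos, F_eq_zero k k (by omega), zero_add]
      · rw [tau_odd h k hk, add_zero]
    rw [sum_congr rfl e1, sum_add_distrib, sum_F_eq h p (by omega), closed h hpos, if_neg hmod,
      sum_ite_eq' (range p) h, if_pos (mem_range.mpr (by omega))]
    ring
  -- the value at `v = 3p`
  have g3 : ∑ k ∈ range p, tau (3 * (p : ℚ)) k = 0 := by
    have hcast : 3 * (p : ℚ) = 2 * ((3 * h + 1 : ℕ) : ℚ) + 1 := by rw [hh]; push_cast; ring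
    have e1 : ∀ k ∈ range p, tau (3 * (p : ℚ)) k = F ((3 * h + 1 : ℕ) : ℚ) k := by
      intro k hk
      have := mem_range.mp hk
      rw [hcast, tau_odd (3 * h + 1) k (by omega)]
    rw [sum_congr rfl e1, sum_F_eq (3 * h + 1) p (by omega), closed (3 * h + 1) (by omega),
      if_pos (by omega)]
  have hW : W p (∑ k ∈ range p, tau (0 : ℚ) k) (∑ k ∈ range p, tau (p : ℚ) k)
      (∑ k ∈ range p, tau (3 * (p : ℚ)) k) :=
    W_sum _ _ _ _ fun k hk => W_tau p h3 k (mem_range.mp hk)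
  have hA : ∑ k ∈ range p, tau (0 : ℚ) k = A p := by
    unfold A
    exact sum_congr rfl fun k _ => tau_zero k
  rw [g1, g3, hA] at hW
  have h2 : Z p 2 (2 * A p) := by
    have := hW.2.2
    simpa using this
  apply num_dvd
  -- divide by two
  have n2 : padicNorm p (2 : ℚ) = 1 := by
    have : padicNorm p ((2 : ℕ) : ℚ) = 1 := by
      rw [padicNorm.nat_eq_one_iff]
      intro hd
      have := Nat.le_of_dvd (by norm_num) hd
      omega
    exact_mod_cast this
  unfold Z at h2 ⊢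
  rwa [padicNorm.mul, n2, one_mul] at h2

end Pool.Agent.Results.MP_37e900_nt.ApVanishes
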